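import Pool.Agent.H60.CM.Basic

/-!
# Stable surfaces of constant mean curvature: the fundamental forms in a parametrization (row PFR)
-/

set_option autoImplicit false

open Set Function MeasureTheory Filter Topology
open scoped Manifold ContDiff Matrix
open Pool.Agent.H60.CM

namespace Pool.Agent.H70.CM

/-- derivative of a dot product -/
theorem pd_dot {f g : E2 → V3} {y : E2} (hf : DifferentiableAt ℝ f y)
    (hg : DifferentiableAt ℝ g y) (i : Fin 2) :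
    pd (fun z => f z ⬝ᵥ g z) y i = pd f y i ⬝ᵥ g y + f y ⬝ᵥ pd g y i := by
  have hfk : ∀ k, DifferentiableAt ℝ (fun z => f z k) y := fun k => by
    exact (differentiableAt_pi.1 hf) k
  have hgk : ∀ k, DifferentiableAt ℝ (fun z => g z k) y := fun k => by
    exact (differentiableAt_pi.1 hg) k
  have e1 : ∀ k, fderiv ℝ f y (ee i) k = fderiv ℝ (fun z => f z k) y (ee i) := fun k => by
    rw [fderiv_pi (differentiableAt_pi.1 hf)]
    rfl
  have e2 : ∀ k, fderiv ℝ g y (ee i) k = fderiv ℝ (fun z => g z k) y (ee i) := fun k => by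
    rw [fderiv_pi (differentiableAt_pi.1 hg)]
    rfl
  unfold pd
  have h : (fun z => f z ⬝ᵥ g z) =
      fun z => (fun z => f z 0 * g z 0) z + ((fun z => f z 1 * g z 1) z +
        (fun z => f z 2 * g z 2) z) := by
    funext z
    simp only [Matrix.vec3_dotProduct]
    ring
  have m : ∀ k, DifferentiableAt ℝ (fun z => f z k * g z k) y := fun k => (hfk k).mul (hgk k)
  rw [h, fderiv_fun_add (m 0) ((m 1).fun_add (m 2)), fderiv_fun_add (m 1) (m 2),
    fderiv_fun_mul (hfk 0) (hgk 0), fderiv_fun_mul (hfk 1) (hgk 1),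
    fderiv_fun_mul (hfk 2) (hgk 2)]
  simp only [Matrix.vec3_dotProduct, e1, e2, ContinuousLinearMap.add_apply,
    ContinuousLinearMap.smul_apply, smul_eq_mul]
  ring

theorem pf_PFR (h1 : T_PDF) : T_PFR := by
  intro D O ψ hP y hy
  obtain ⟨m00, m01, m10, m11, hm, h2⟩ := h1 D O ψ hP y hy
  obtain ⟨hX, hX0, hX1⟩ := h2 V3 D.x D.smx
  obtain ⟨hN, hN0, hN1⟩ := h2 V3 D.N D.smN
  have hO : O ∈ 𝓝 y := hP.isOpen.mem_nhds hy
  have hXy : ContDiffAt ℝ ∞ (D.x ∘ ψ) y := hX.contDiffAt hO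
  have hNy : ContDiffAt ℝ ∞ (D.N ∘ ψ) y := hN.contDiffAt hO
  have hNd : DifferentiableAt ℝ (D.N ∘ ψ) y := hNy.differentiableAt (by simp)
  -- the normal is orthogonal to the derivatives at all points of `O`
  have hort : ∀ z ∈ O, ∀ i, D.N (ψ z) ⬝ᵥ pd (D.x ∘ ψ) z i = 0 := by
    intro z hz i
    obtain ⟨a, b, c, d, -, h3⟩ := h1 D O ψ hP z hz
    obtain ⟨-, h4, h5⟩ := h3 V3 D.x D.smx
    have n0 := D.cmc.normal (ψ z) 0
    have n1 := D.cmc.normal (ψ z) 1
    fin_cases i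
    · change D.N (ψ z) ⬝ᵥ pd (D.x ∘ ψ) z 0 = 0
      rw [h4, dotProduct_add, dotProduct_smul, dotProduct_smul, n0, n1]
      simp
    · change D.N (ψ z) ⬝ᵥ pd (D.x ∘ ψ) z 1 = 0
      rw [h5, dotProduct_add, dotProduct_smul, dotProduct_smul, n0, n1]
      simp
  have hnn : ∀ i, D.N (ψ y) ⬝ᵥ pd (D.N ∘ ψ) y i = 0 := by
    intro i
    have h3 := pd_dot hNd hNd i
    have h4 : (fun z => (D.N ∘ ψ) z ⬝ᵥ (D.N ∘ ψ) z) = fun _ => (1 : ℝ) :=
      funext fun z => D.cmc.unit (ψ z)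
    rw [h4] at h3
    have h5 : pd (fun _ : E2 => (1 : ℝ)) y i = 0 := by
      unfold pd
      rw [fderiv_const_apply]
      rfl
    rw [h5, dotProduct_comm (pd (D.N ∘ ψ) y i)] at h3
    change 0 = D.N (ψ y) ⬝ᵥ pd (D.N ∘ ψ) y i + D.N (ψ y) ⬝ᵥ pd (D.N ∘ ψ) y i at h3
    linarith
  -- second derivatives
  have h2le : (2 : WithTop ℕ∞) ≤ ∞ := by
    have h3 : ((2 : ℕ∞) : WithTop ℕ∞) ≤ ((⊤ : ℕ∞) : WithTop ℕ∞) := WithTop.coe_le_coe.2 le_top
    exact h3
  have hX2 : ContDiffAt ℝ 2 (D.x ∘ ψ) y := hXy.of_le h2le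
  have hfX : DifferentiableAt ℝ (fderiv ℝ (D.x ∘ ψ)) y :=
    (hX2.fderiv_right (m := 1) (by norm_num)).differentiableAt (by simp)
  have hpd : ∀ i, DifferentiableAt ℝ (fun z => pd (D.x ∘ ψ) z i) y := by
    intro i
    unfold pd
    exact hfX.clm_apply (differentiableAt_const _)
  have hsecond : ∀ i j, pd (fun z => pd (D.x ∘ ψ) z i) y j =
      fderiv ℝ (fderiv ℝ (D.x ∘ ψ)) y (ee j) (ee i) := by
    intro i j
    have h3 : HasFDerivAt (fun z => fderiv ℝ (D.x ∘ ψ) z (ee i))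
        ((ContinuousLinearMap.apply ℝ V3 (ee i)).comp (fderiv ℝ (fderiv ℝ (D.x ∘ ψ)) y)) y :=
      (ContinuousLinearMap.apply ℝ V3 (ee i)).hasFDerivAt.comp y hfX.hasFDerivAt
    unfold pd
    rw [h3.fderiv]
    rfl
  have hsymm : pd (fun z => pd (D.x ∘ ψ) z 0) y 1 = pd (fun z => pd (D.x ∘ ψ) z 1) y 0 := by
    rw [hsecond, hsecond]
    exact (hX2.isSymmSndFDerivAt (by simp)) (ee 1) (ee 0)
  have hmix : ∀ i j, pd (D.N ∘ ψ) y j ⬝ᵥ pd (D.x ∘ ψ) y i +
      D.N (ψ y) ⬝ᵥ pd (fun z => pd (D.x ∘ ψ) z i) y j = 0 := by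
    intro i j
    have h3 := pd_dot hNd (hpd i) j
    have h4 : (fun z => (D.N ∘ ψ) z ⬝ᵥ pd (D.x ∘ ψ) z i) =ᶠ[𝓝 y] fun _ => (0 : ℝ) := by
      filter_upwards [hO] with z hz
      exact hort z hz i
    have h5 : pd (fun z => (D.N ∘ ψ) z ⬝ᵥ pd (D.x ∘ ψ) z i) y j = 0 := by
      unfold pd at h4 ⊢
      rw [h4.fderiv_eq, fderiv_const_apply]
      rfl
    rw [h5] at h3
    exact h3.symm
  refine ⟨hP.imm y hy, D.cmc.unit (ψ y), hort y hy 0, hort y hy 1, hnn 0, hnn 1, ?_, ?_⟩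
  · have h3 := hmix 0 1
    have h4 := hmix 1 0
    rw [hsymm] at h3
    rw [dotProduct_comm, dotProduct_comm (pd (D.x ∘ ψ) y 1)]
    linarith
  · have hc := D.cmc.cmc (ψ y)
    rw [hX0, hX1, hN0, hN1]
    generalize dd D.N (ψ y) 0 = n0 at hc ⊢
    generalize dd D.N (ψ y) 1 = n1 at hc ⊢
    generalize dd D.x (ψ y) 0 = a0 at hc ⊢
    generalize dd D.x (ψ y) 1 = a1 at hc ⊢
    have c0 := congrFun hc 0
    have c1 := congrFun hc 1
    have c2 := congrFun hc 2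
    simp only [cross_apply, Pi.add_apply, Pi.smul_apply, smul_eq_mul, Matrix.cons_val_zero,
      Matrix.cons_val_one, Matrix.cons_val] at c0 c1 c2
    ext k
    fin_cases k
    · simp [cross_apply]
      linear_combination (m00 * m11 - m01 * m10) * c0
    · simp [cross_apply]
      linear_combination (m00 * m11 - m01 * m10) * c1
    · simp [cross_apply]
      linear_combination (m00 * m11 - m01 * m10) * c2

end Pool.Agent.H70.CM
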